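import Mathlib
import Pool.Agent.H.MP_59b15d_al.symh.Defs

set_option autoImplicit false

/-!
The point pushing subgroup: filling in the last puncture.
-/

namespace Pool.MP_59b15d_al.H73H

open Pool.MP_59b15d_al.Sym (Gg cW)
open Pool.MP_59b15d_al.SymH
open FreeGroup (of)

variable {h N : ℕ}

/-- the generators of the handles -/
abbrev ga (i : Fin h) : FG h N := of (Sum.inl (Sum.inl i))

/-- the generators of the handles -/
abbrev gb (i : Fin h) : FG h N := of (Sum.inl (Sum.inr i))

/-- the commutators -/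
def cm (i : Fin h) : FG h N := ga i * gb i * (ga i)⁻¹ * (gb i)⁻¹

theorem cW_eq : (cW h N : FG h N) = (List.ofFn fun i : Fin h => (cm i : FG h N)).prod *
    (List.ofFn fun j : Fin N => (xg j : FG h N)).prod := rfl

theorem map_ofFn_prod {G G' : Type*} [Group G] [Group G'] (f : G →* G') {n : ℕ} (g : Fin n → G) :
    f (List.ofFn g).prod = (List.ofFn fun i => f (g i)).prod := by
  rw [map_list_prod, List.map_ofFn]
  rfl

theorem prod_ofFn_last {G : Type*} [Group G] {n : ℕ} (g : Fin (n + 1) → G) :
    (List.ofFn g).prod = (List.ofFn fun i : Fin n => g i.castSucc).prod * g (Fin.last n) := by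
  rw [List.ofFn_succ', List.concat_eq_append, List.prod_append, List.prod_singleton]

/-- the inclusion -/
def io : FG h N →* FG h (N + 1) :=
  FreeGroup.lift (Sum.elim (fun s => of (Sum.inl s)) (fun j => xg j.castSucc))

/-- filling in the last puncture -/
def kap : FG h (N + 1) →* FG h N :=
  FreeGroup.lift (Sum.elim (fun s => of (Sum.inl s)) per)

theorem io_inl (s : Fin h ⊕ Fin h) : (io (of (Sum.inl s)) : FG h (N + 1)) = of (Sum.inl s) := by
  rw [io, FreeGroup.lift_apply_of]; rfl

theorem io_xg (j : Fin N) : (io (xg j) : FG h (N + 1)) = xg j.castSucc := by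
  rw [io, FreeGroup.lift_apply_of]; rfl

theorem kap_inl (s : Fin h ⊕ Fin h) : (kap (of (Sum.inl s)) : FG h N) = of (Sum.inl s) := by
  rw [kap, FreeGroup.lift_apply_of]; rfl

theorem kap_xg (j : Fin (N + 1)) : (kap (xg j) : FG h N) = per j := by
  rw [kap, FreeGroup.lift_apply_of]; rfl

theorem io_cm (i : Fin h) : (io (cm i) : FG h (N + 1)) = cm i := by
  simp only [cm, map_mul, map_inv, io_inl]

theorem kap_cm (i : Fin h) : (kap (cm i) : FG h N) = cm i := by
  simp only [cm, map_mul, map_inv, kap_inl]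

theorem io_cW : (io (cW h N) : FG h (N + 1)) * xg (Fin.last N) = cW h (N + 1) := by
  rw [cW_eq, cW_eq, map_mul, map_ofFn_prod, map_ofFn_prod, prod_ofFn_last (fun j => xg j)]
  simp only [io_cm, io_xg]
  rw [mul_assoc]

theorem kap_cW : (kap (cW h (N + 1)) : FG h N) = 1 := by
  rw [cW_eq, map_mul, map_ofFn_prod, map_ofFn_prod, prod_ofFn_last]
  simp only [kap_cm, kap_xg, per_last, per_castSucc]
  rw [← mul_assoc, ← cW_eq, xn, mul_inv_cancel]

theorem kap_io (z : FG h N) : kap (io z) = z := by
  have : (kap : FG h (N + 1) →* FG h N).comp io = MonoidHom.id _ := by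
    apply FreeGroup.ext_hom
    rintro (s | j)
    · rw [MonoidHom.comp_apply, io_inl, kap_inl]; rfl
    · rw [MonoidHom.comp_apply, io_xg, kap_xg, per_castSucc]; rfl
  exact DFunLike.congr_fun this z

theorem kap_per (j : Fin (N + 1)) : (kap (per j.castSucc) : FG h N) = per j := by
  rw [per_castSucc, kap_xg]

theorem kap_xn : (kap (xn h (N + 1)) : FG h N) = 1 := by
  rw [xn, map_inv, kap_cW, inv_one]

theorem xg_last : (xg (Fin.last N) : FG h (N + 1)) = (io (cW h N))⁻¹ * cW h (N + 1) := by
  rw [← io_cW]; group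

/-- two homomorphisms that agree on the letters -/
theorem hom_ext {G : Type*} [Group G] {f g : FG h N →* G}
    (h1 : ∀ s, f (of (Sum.inl s)) = g (of (Sum.inl s))) (h2 : ∀ j, f (xg j) = g (xg j)) : f = g := by
  apply FreeGroup.ext_hom
  rintro (s | j)
  · exact h1 s
  · exact h2 j

/-- two homomorphisms that agree on the image of `io` and on `c` -/
theorem hom_ext_io {G : Type*} [Group G] {f g : FG h (N + 1) →* G}
    (h1 : ∀ z : FG h N, f (io z) = g (io z)) (h2 : f (cW h (N + 1)) = g (cW h (N + 1))) : f = g := by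
  apply hom_ext
  · intro s
    rw [← io_inl, h1]
  · intro j
    refine Fin.lastCases ?_ (fun j => ?_) j
    · rw [xg_last, map_mul, map_mul, map_inv, map_inv, h1, h2]
    · rw [← io_xg, h1]

theorem hom_ext_io' {G : Type*} [Group G] {f g : FG h (N + 1) →* G}
    (h1 : ∀ z : FG h N, f (io z) = g (io z)) (h2 : f (xg (Fin.last N)) = g (xg (Fin.last N))) :
    f = g := by
  apply hom_ext
  · intro s
    rw [← io_inl, h1]
  · intro j
    refine Fin.lastCases h2 (fun j => ?_) j
    rw [← io_xg, h1]

/-- Homomorphisms killing `c` factor through `kap`. -/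
theorem fac {G : Type*} [Group G] (f : FG h (N + 1) →* G) (hf : f (cW h (N + 1)) = 1)
    (z : FG h (N + 1)) : f (io (kap z)) = f z := by
  have : (f.comp io).comp kap = f := by
    apply hom_ext_io
    · intro z
      rw [MonoidHom.comp_apply, MonoidHom.comp_apply, kap_io]
    · rw [MonoidHom.comp_apply, kap_cW, map_one, hf]
  exact DFunLike.congr_fun this z

theorem ker_le {Γ : Subgroup (FG h (N + 1))} (hΓ : Γ.Normal) (hc : cW h (N + 1) ∈ Γ)
    {z : FG h (N + 1)} (hz : kap z = 1) : z ∈ Γ := by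
  have h1 := fac (QuotientGroup.mk' Γ) (by
    rw [QuotientGroup.mk'_apply, QuotientGroup.eq_one_iff]; exact hc) z
  rw [hz, map_one, map_one] at h1
  rw [← QuotientGroup.eq_one_iff]
  exact h1.symm

/-- The stabiliser of `c` in the pure mapping class group. -/
def CPc (h N : ℕ) : Subgroup (MulAut (FG h N)) where
  carrier := {f | f ∈ CP h N ∧ f (cW h N) = cW h N}
  mul_mem' := by
    rintro f g ⟨hf, hf'⟩ ⟨hg, hg'⟩
    refine ⟨mul_mem hf hg, ?_⟩
    rw [MulAut.mul_apply, hg', hf']
  one_mem' := ⟨one_mem _, rfl⟩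
  inv_mem' := by
    rintro f ⟨hf, hf'⟩
    refine ⟨inv_mem hf, ?_⟩
    have h : f⁻¹ (f (cW h N)) = cW h N := MulAut.inv_apply_self _ _ _
    rwa [hf'] at h

theorem mem_CPc {f : MulAut (FG h N)} : f ∈ CPc h N ↔ f ∈ CP h N ∧ f (cW h N) = cW h N := Iff.rfl

theorem CP_of {f : MulAut (FG h N)} (h1 : ∀ j : Fin N, ∃ w, f (xg j) = w * xg j * w⁻¹)
    (h2 : ∃ u, f (cW h N) = u * cW h N * u⁻¹) : f ∈ CP h N := by
  intro j
  refine Fin.lastCases ?_ (fun j => ?_) j
  · obtain ⟨u, hu⟩ := h2
    refine ⟨u, ?_⟩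
    rw [per_last, xn, map_inv, hu]
    group
  · rw [per_castSucc]
    exact h1 j

theorem CP_xg {f : MulAut (FG h N)} (hf : f ∈ CP h N) (j : Fin N) :
    ∃ w, f (xg j) = w * xg j * w⁻¹ := by
  have h1 := hf j.castSucc
  rwa [per_castSucc] at h1

theorem CP_cW {f : MulAut (FG h N)} (hf : f ∈ CP h N) :
    ∃ w, f (cW h N) = w * cW h N * w⁻¹ := by
  obtain ⟨w, hw⟩ := hf (Fin.last N)
  refine ⟨w, ?_⟩
  rw [per_last, xn, map_inv] at hw
  rw [← inv_inj, hw]
  group

theorem conj_CP (v : FG h N) : MulAut.conj v ∈ CP h N := fun _ => ⟨v, rfl⟩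

theorem kap_red {f : MulAut (FG h (N + 1))} (hf : f (cW h (N + 1)) = cW h (N + 1))
    (z : FG h (N + 1)) : kap (f (io (kap z))) = kap (f z) :=
  fac ((kap : FG h (N + 1) →* FG h N).comp f.toMonoidHom) (by
    change kap (f (cW h (N + 1))) = 1
    rw [hf, kap_cW]) z

/-- The automorphism of the filled surface. -/
def redA (f : MulAut (FG h (N + 1))) (hf : f (cW h (N + 1)) = cW h (N + 1))
    (hf' : f⁻¹ (cW h (N + 1)) = cW h (N + 1)) : MulAut (FG h N) where
  toFun := fun y => kap (f (io y))
  invFun := fun y => kap (f⁻¹ (io y))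
  left_inv := fun y => by
    change kap (f⁻¹ (io (kap (f (io y))))) = y
    rw [kap_red hf', MulAut.inv_apply_self, kap_io]
  right_inv := fun y => by
    change kap (f (io (kap (f⁻¹ (io y))))) = y
    rw [kap_red hf, MulAut.apply_inv_self, kap_io]
  map_mul' := fun y z => by rw [map_mul, map_mul, map_mul]

/-- Filling in the last puncture. -/
def red : CPc h (N + 1) →* CP h N where
  toFun := fun f => ⟨redA f f.2.2 (f⁻¹).2.2, fun j => by
    change ∃ w, kap ((f : MulAut (FG h (N + 1))) (io (per j))) = _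
    obtain ⟨w, hw⟩ := f.2.1 j.castSucc
    refine ⟨kap w, ?_⟩
    rw [← kap_per j, kap_red f.2.2, hw, map_mul, map_mul, map_inv]⟩
  map_one' := by
    apply Subtype.ext
    apply MulEquiv.ext
    intro y
    exact kap_io y
  map_mul' := fun f g => by
    apply Subtype.ext
    apply MulEquiv.ext
    intro y
    change kap ((f : MulAut (FG h (N + 1))) ((g : MulAut (FG h (N + 1))) (io y))) =
      kap ((f : MulAut (FG h (N + 1))) (io (kap ((g : MulAut (FG h (N + 1))) (io y)))))
    rw [kap_red f.2.2]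

theorem red_kap (f : CPc h (N + 1)) (z : FG h (N + 1)) :
    (red f : MulAut (FG h N)) (kap z) = kap ((f : MulAut (FG h (N + 1))) z) :=
  kap_red f.2.2 z

/-- The extension of an automorphism fixing `c` by the identity. -/
def exH (f : FG h N →* FG h N) : FG h (N + 1) →* FG h (N + 1) :=
  FreeGroup.lift (Sum.elim (fun s => io (f (of (Sum.inl s))))
    (fun j => Fin.lastCases (motive := fun _ => FG h (N + 1)) (xg (Fin.last N))
      (fun j => io (f (xg j))) j))

theorem exH_last (f : FG h N →* FG h N) : exH f (xg (Fin.last N)) = xg (Fin.last N) := by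
  rw [exH, FreeGroup.lift_apply_of, Sum.elim_inr, Fin.lastCases_last]

theorem exH_io (f : FG h N →* FG h N) (z : FG h N) : exH f (io z) = io (f z) := by
  have : (exH f).comp io = io.comp f := by
    apply hom_ext
    · intro s
      rw [MonoidHom.comp_apply, io_inl, exH, FreeGroup.lift_apply_of]
      rfl
    · intro j
      rw [MonoidHom.comp_apply, io_xg, exH, FreeGroup.lift_apply_of, Sum.elim_inr,
        Fin.lastCases_castSucc]
      rfl
  exact DFunLike.congr_fun this z

theorem exH_comp (f g : FG h N →* FG h N) : (exH f).comp (exH g) = exH (f.comp g) := by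
  apply hom_ext_io'
  · intro z
    rw [MonoidHom.comp_apply, exH_io, exH_io, exH_io]
    rfl
  · rw [MonoidHom.comp_apply, exH_last, exH_last, exH_last]

theorem exH_id : exH (MonoidHom.id (FG h N)) = MonoidHom.id _ := by
  apply hom_ext_io'
  · intro z
    rw [exH_io]
    rfl
  · rw [exH_last]
    rfl

/-- The extension of an automorphism fixing `c` by the identity. -/
def exA (f : MulAut (FG h N)) : MulAut (FG h (N + 1)) where
  toFun := exH f.toMonoidHom
  invFun := exH (f⁻¹).toMonoidHom
  left_inv := fun z => by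
    have h1 := DFunLike.congr_fun (exH_comp (f⁻¹).toMonoidHom f.toMonoidHom) z
    have h2 : (f⁻¹).toMonoidHom.comp f.toMonoidHom = MonoidHom.id (FG h N) := by
      apply MonoidHom.ext
      intro z
      exact MulAut.inv_apply_self _ f z
    rw [h2, exH_id] at h1
    exact h1
  right_inv := fun z => by
    have h1 := DFunLike.congr_fun (exH_comp f.toMonoidHom (f⁻¹).toMonoidHom) z
    have h2 : f.toMonoidHom.comp (f⁻¹).toMonoidHom = MonoidHom.id (FG h N) := by
      apply MonoidHom.ext
      intro z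
      exact MulAut.apply_inv_self _ f z
    rw [h2, exH_id] at h1
    exact h1
  map_mul' := map_mul _

theorem exA_io (f : MulAut (FG h N)) (z : FG h N) : exA f (io z) = io (f z) :=
  exH_io f.toMonoidHom z

theorem exA_last (f : MulAut (FG h N)) : exA f (xg (Fin.last N)) = xg (Fin.last N) :=
  exH_last f.toMonoidHom

theorem exA_mem {f : MulAut (FG h N)} (hf : f ∈ CPc h N) : exA f ∈ CPc h (N + 1) := by
  have hc : exA f (cW h (N + 1)) = cW h (N + 1) := by
    rw [← io_cW, map_mul, exA_io, exA_last, hf.2]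
  refine ⟨CP_of (fun j => ?_) ⟨1, by rw [hc]; group⟩, hc⟩
  refine Fin.lastCases ?_ (fun j => ?_) j
  · exact ⟨1, by rw [exA_last]; group⟩
  · obtain ⟨w, hw⟩ := CP_xg hf.1 j
    exact ⟨io w, by rw [← io_xg, exA_io, hw, map_mul, map_mul, map_inv]⟩

end Pool.MP_59b15d_al.H73H
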