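import Mathlib
import Pool.Agent.H.MP_59b15d_al.h73h.Pu1

set_option autoImplicit false

/-!
Pushing the last puncture around the generators.
-/

namespace Pool.MP_59b15d_al.H73H

open Pool.MP_59b15d_al.Sym (Gg cW)
open Pool.MP_59b15d_al.SymH
open FreeGroup (of)

section letters

variable {α : Type} [DecidableEq α]

/-- the words without the letter `s` -/
def Ot (s : α) : Subgroup (FreeGroup α) := Subgroup.closure {z | ∃ t, t ≠ s ∧ z = of t}

/-- replace the letter `s` by `u s v` -/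
def mvH (s : α) (u v : FreeGroup α) : FreeGroup α →* FreeGroup α :=
  FreeGroup.lift (fun t => if t = s then u * of s * v else of t)

theorem mvH_self (s : α) (u v : FreeGroup α) : mvH s u v (of s) = u * of s * v := by
  rw [mvH, FreeGroup.lift_apply_of, if_pos rfl]

theorem mvH_ne {s t : α} (ht : t ≠ s) (u v : FreeGroup α) : mvH s u v (of t) = of t := by
  rw [mvH, FreeGroup.lift_apply_of, if_neg ht]

omit [DecidableEq α] in
theorem of_Ot {s t : α} (ht : t ≠ s) : of t ∈ Ot s := Subgroup.subset_closure ⟨t, ht, rfl⟩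

theorem mvH_Ot {s : α} {u v z : FreeGroup α} (hz : z ∈ Ot s) : mvH s u v z = z := by
  have h1 : Ot s ≤ (mvH s u v).eqLocus (MonoidHom.id _) := by
    rw [Ot, Subgroup.closure_le]
    rintro _ ⟨t, ht, rfl⟩
    exact mvH_ne ht u v
  exact h1 hz

theorem mvH_inv {s : α} {u v : FreeGroup α} (hu : u ∈ Ot s) (hv : v ∈ Ot s) (z : FreeGroup α) :
    mvH s u v (mvH s u⁻¹ v⁻¹ z) = z := by
  have : (mvH s u v).comp (mvH s u⁻¹ v⁻¹) = MonoidHom.id _ := by
    apply FreeGroup.ext_hom
    intro t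
    by_cases ht : t = s
    · subst ht
      rw [MonoidHom.comp_apply, mvH_self, map_mul, map_mul, map_inv, map_inv, mvH_Ot hu, mvH_Ot hv,
        mvH_self]
      simp [mul_assoc]
    · rw [MonoidHom.comp_apply, mvH_ne ht, mvH_ne ht]
      rfl
  exact DFunLike.congr_fun this z

/-- replace the letter `s` by `u s v` -/
def mv {s : α} {u v : FreeGroup α} (hu : u ∈ Ot s) (hv : v ∈ Ot s) : MulAut (FreeGroup α) where
  toFun := mvH s u v
  invFun := mvH s u⁻¹ v⁻¹
  left_inv := fun z => by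
    have h1 := mvH_inv (inv_mem hu) (inv_mem hv) z
    rwa [inv_inv, inv_inv] at h1
  right_inv := mvH_inv hu hv
  map_mul' := map_mul _

theorem mv_self {s : α} {u v : FreeGroup α} (hu : u ∈ Ot s) (hv : v ∈ Ot s) :
    mv hu hv (of s) = u * of s * v := mvH_self s u v

theorem mv_ne {s t : α} {u v : FreeGroup α} (hu : u ∈ Ot s) (hv : v ∈ Ot s) (ht : t ≠ s) :
    mv hu hv (of t) = of t := mvH_ne ht u v

theorem mv_Ot {s : α} {u v z : FreeGroup α} (hu : u ∈ Ot s) (hv : v ∈ Ot s) (hz : z ∈ Ot s) :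
    mv hu hv z = z := mvH_Ot hz

end letters

theorem split {G : Type*} [Group G] {n : ℕ} (g : Fin n → G) (i : Fin n) : ∃ L R : G,
    (List.ofFn g).prod = L * g i * R ∧ L ∈ Subgroup.closure {z | ∃ j, j < i ∧ z = g j} ∧
      R ∈ Subgroup.closure {z | ∃ j, i < j ∧ z = g j} := by
  induction n with
  | zero => exact i.elim0
  | succ n ih =>
    rw [prod_ofFn_last]
    refine Fin.lastCases ?_ (fun i => ?_) i
    · refine ⟨_, 1, (mul_one _).symm, ?_, one_mem _⟩
      apply Subgroup.list_prod_mem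
      intro x hx
      rw [List.mem_ofFn] at hx
      obtain ⟨j, rfl⟩ := hx
      exact Subgroup.subset_closure ⟨_, Fin.castSucc_lt_last j, rfl⟩
    · obtain ⟨L, R, h1, h2, h3⟩ := ih (fun i => g i.castSucc) i
      refine ⟨L, R * g (Fin.last n), by rw [h1]; group, ?_, mul_mem ?_ ?_⟩
      · refine Subgroup.closure_mono ?_ h2
        rintro _ ⟨j, hj, rfl⟩
        exact ⟨_, Fin.castSucc_lt_castSucc_iff.mpr hj, rfl⟩
      · refine Subgroup.closure_mono ?_ h3
        rintro _ ⟨j, hj, rfl⟩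
        exact ⟨_, Fin.castSucc_lt_castSucc_iff.mpr hj, rfl⟩
      · exact Subgroup.subset_closure ⟨_, Fin.castSucc_lt_last i, rfl⟩

variable {h N : ℕ}

/-- the elements around which the last puncture can be pushed -/
def YY (h N : ℕ) : Subgroup (FG h N) where
  carrier := {y | ∃ f ∈ CPc h (N + 1), ∀ z, kap (f z) = y * kap z * y⁻¹}
  mul_mem' := by
    rintro y y' ⟨f, hf, hf'⟩ ⟨g, hg, hg'⟩
    refine ⟨f * g, mul_mem hf hg, fun z => ?_⟩
    rw [MulAut.mul_apply, hf', hg']
    group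
  one_mem' := ⟨1, one_mem _, fun z => by rw [MulAut.one_apply]; group⟩
  inv_mem' := by
    rintro y ⟨f, hf, hf'⟩
    refine ⟨f⁻¹, inv_mem hf, fun z => ?_⟩
    have h1 := hf' (f⁻¹ z)
    rw [MulAut.apply_inv_self] at h1
    rw [h1]
    group

theorem mem_YY {y : FG h N} :
    y ∈ YY h N ↔ ∃ f ∈ CPc h (N + 1), ∀ z, kap (f z) = y * kap z * y⁻¹ := Iff.rfl

theorem from_push (p : MulAut (FG h (N + 1))) (hx : ∀ j, ∃ w, p (xg j) = w * xg j * w⁻¹)
    (u : FG h (N + 1)) (hc : p (cW h (N + 1)) = u * cW h (N + 1) * u⁻¹)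
    (hk1 : ∀ s, kap (p (of (Sum.inl s))) = (of (Sum.inl s) : FG h N))
    (hk2 : ∀ j, kap (p (xg j)) = (per j : FG h N)) :
    kap u ∈ YY h N := by
  have hk : ∀ z, kap (p z) = (kap z : FG h N) := by
    intro z
    have : (kap : FG h (N + 1) →* FG h N).comp p.toMonoidHom = kap := by
      apply hom_ext
      · intro s
        rw [kap_inl]
        exact hk1 s
      · intro j
        rw [kap_xg]
        exact hk2 j
    exact DFunLike.congr_fun this z
  have h1 : (kap u)⁻¹ ∈ YY h N := by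
    refine ⟨MulAut.conj u⁻¹ * p, ⟨mul_mem (conj_CP _) (CP_of hx ⟨u, hc⟩), ?_⟩, fun z => ?_⟩
    · rw [MulAut.mul_apply, hc, MulAut.conj_apply]
      group
    · rw [MulAut.mul_apply, MulAut.conj_apply, map_mul, map_mul, map_inv, inv_inv, inv_inv, hk]
  have h2 := inv_mem h1
  rwa [inv_inv] at h2

theorem cm_Ot {i j : Fin h} (hij : j ≠ i) : (cm j : FG h (N + 1)) ∈ Ot (Sum.inl (Sum.inl i)) ∧
    (cm j : FG h (N + 1)) ∈ Ot (Sum.inl (Sum.inr i)) := by
  constructor
  · exact mul_mem (mul_mem (mul_mem (of_Ot (by simpa using hij)) (of_Ot (by simp)))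
      (inv_mem (of_Ot (by simpa using hij)))) (inv_mem (of_Ot (by simp)))
  · exact mul_mem (mul_mem (mul_mem (of_Ot (by simp)) (of_Ot (by simpa using hij)))
      (inv_mem (of_Ot (by simp)))) (inv_mem (of_Ot (by simpa using hij)))

theorem xs_Ot (s : Fin h ⊕ Fin h) :
    (List.ofFn fun j : Fin (N + 1) => (xg j : FG h (N + 1))).prod ∈ Ot (Sum.inl s) := by
  apply Subgroup.list_prod_mem
  intro x hx
  rw [List.mem_ofFn] at hx
  obtain ⟨j, rfl⟩ := hx
  exact of_Ot (by simp)

theorem cms_Ot (j : Fin (N + 1)) :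
    (List.ofFn fun i : Fin h => (cm i : FG h (N + 1))).prod ∈ Ot (Sum.inr j) := by
  apply Subgroup.list_prod_mem
  intro x hx
  rw [List.mem_ofFn] at hx
  obtain ⟨i, rfl⟩ := hx
  exact mul_mem (mul_mem (mul_mem (of_Ot (by simp)) (of_Ot (by simp)))
      (inv_mem (of_Ot (by simp)))) (inv_mem (of_Ot (by simp)))

/-- Pushing around the handles. -/
theorem push_handle (i : Fin h) : ∃ L : FG h N,
    L ∈ Subgroup.closure {z | ∃ j, j < i ∧ z = cm j} ∧
    L * ga i * gb i * ga i * (gb i)⁻¹ * (ga i)⁻¹ * L⁻¹ ∈ YY h N ∧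
    L * ga i * (gb i)⁻¹ * (ga i)⁻¹ * L⁻¹ ∈ YY h N := by
  obtain ⟨L, R, hLR, hL, hR⟩ := split (fun i : Fin h => (cm i : FG h (N + 1))) i
  set X := (List.ofFn fun j : Fin (N + 1) => (xg j : FG h (N + 1))).prod with hX
  have hc : (cW h (N + 1) : FG h (N + 1)) = L * cm i * (R * X) := by
    rw [cW_eq, hLR, mul_assoc _ R]
  -- the words `L` and `R` do not contain the letters `a_i`, `b_i`
  have hLa : L ∈ Ot (Sum.inl (Sum.inl i)) := by
    refine (Subgroup.closure_le _).2 ?_ hL
    rintro _ ⟨j, hj, rfl⟩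
    exact (cm_Ot hj.ne).1
  have hLb : L ∈ Ot (Sum.inl (Sum.inr i)) := by
    refine (Subgroup.closure_le _).2 ?_ hL
    rintro _ ⟨j, hj, rfl⟩
    exact (cm_Ot hj.ne).2
  have hRa : R * X ∈ Ot (Sum.inl (Sum.inl i)) := by
    refine mul_mem ((Subgroup.closure_le _).2 ?_ hR) (xs_Ot _)
    rintro _ ⟨j, hj, rfl⟩
    exact (cm_Ot hj.ne').1
  have hRb : R * X ∈ Ot (Sum.inl (Sum.inr i)) := by
    refine mul_mem ((Subgroup.closure_le _).2 ?_ hR) (xs_Ot _)
    rintro _ ⟨j, hj, rfl⟩
    exact (cm_Ot hj.ne').2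
  generalize R * X = R' at hc hRa hRb
  -- the relation after filling in
  have hk : (kap R' : FG h N) = (kap L * cm i)⁻¹ := by
    have h1 := kap_cW (h := h) (N := N)
    rw [hc, map_mul, map_mul, kap_cm] at h1
    rw [eq_inv_iff_mul_eq_one]
    have h2 : kap R' * (kap L * cm i) = (kap L * cm i)⁻¹ * (kap L * cm i * kap R') *
      (kap L * cm i : FG h N) := by group
    rw [h2, h1]
    group
  have haO : (ga i : FG h (N + 1)) ∈ Ot (Sum.inl (Sum.inr i)) := of_Ot (by simp)
  have hbO : (gb i : FG h (N + 1)) ∈ Ot (Sum.inl (Sum.inl i)) := of_Ot (by simp)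
  refine ⟨kap L, ?_, ?_, ?_⟩
  · have h1 : Subgroup.closure {z | ∃ j, j < i ∧ z = (cm j : FG h (N + 1))} ≤
        (Subgroup.closure {z | ∃ j, j < i ∧ z = (cm j : FG h N)}).comap kap := by
      rw [Subgroup.closure_le]
      rintro _ ⟨j, hj, rfl⟩
      change kap (cm j) ∈ _
      rw [kap_cm]
      exact Subgroup.subset_closure ⟨j, hj, rfl⟩
    exact h1 hL
  · -- `b ↦ R L a b a⁻¹`
    have h1 := from_push (mv (s := Sum.inl (Sum.inr i)) (u := R' * L * ga i) (v := (ga i)⁻¹)
      (mul_mem (mul_mem hRb hLb) haO) (inv_mem haO))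
      (fun j => ⟨1, by rw [mv_ne _ _ (by simp)]; group⟩) (L * ga i * R')
      (by
        rw [hc, map_mul, map_mul, mv_Ot _ _ hLb, mv_Ot _ _ hRb, cm, map_mul, map_mul, map_mul,
          map_inv, map_inv, mv_self, mv_Ot _ _ haO]
        group)
      (by
        intro s
        by_cases hs : s = Sum.inr i
        · subst hs
          rw [mv_self, map_mul, map_mul, map_mul, map_mul, map_inv, hk]
          rw [kap_inl, kap_inl, cm]
          group
        · rw [mv_ne _ _ (by simpa using hs), kap_inl])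
      (fun j => by rw [mv_ne _ _ (by simp), kap_xg])
    rw [map_mul, map_mul, kap_inl, hk, cm] at h1
    have h2 : kap L * ga i * gb i * ga i * (gb i)⁻¹ * (ga i)⁻¹ * (kap L)⁻¹ =
      kap L * of (Sum.inl (Sum.inl i)) * (kap L * (ga i * gb i * (ga i)⁻¹ * (gb i)⁻¹) : FG h N)⁻¹ := by
      group
    rw [h2]
    exact h1
  · -- `a ↦ b⁻¹ R L a b`
    have h1 := from_push (mv (s := Sum.inl (Sum.inl i)) (u := (gb i)⁻¹ * R' * L) (v := gb i)
      (mul_mem (mul_mem (inv_mem hbO) hRa) hLa) hbO)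
      (fun j => ⟨1, by rw [mv_ne _ _ (by simp)]; group⟩) (L * (gb i)⁻¹ * R')
      (by
        rw [hc, map_mul, map_mul, mv_Ot _ _ hLa, mv_Ot _ _ hRa, cm, map_mul, map_mul, map_mul,
          map_inv, map_inv, mv_self, mv_Ot _ _ hbO]
        group)
      (by
        intro s
        by_cases hs : s = Sum.inl i
        · subst hs
          rw [mv_self, map_mul, map_mul, map_mul, map_mul, map_inv, hk]
          rw [kap_inl, kap_inl, cm]
          group
        · rw [mv_ne _ _ (by simpa using hs), kap_inl])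
      (fun j => by rw [mv_ne _ _ (by simp), kap_xg])
    rw [map_mul, map_mul, map_inv, kap_inl, hk, cm] at h1
    have h2 : kap L * ga i * (gb i)⁻¹ * (ga i)⁻¹ * (kap L)⁻¹ =
      kap L * (of (Sum.inl (Sum.inr i)))⁻¹ *
        (kap L * (ga i * gb i * (ga i)⁻¹ * (gb i)⁻¹) : FG h N)⁻¹ := by
      group
    rw [h2]
    exact h1

/-- Pushing around the punctures. -/
theorem push_point (j : Fin N) : ∃ L : FG h N,
    L ∈ Subgroup.closure {z | (∃ i, z = cm i) ∨ ∃ i, i < j ∧ z = xg i} ∧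
    L * xg j * L⁻¹ ∈ YY h N := by
  obtain ⟨L, R, hLR, hL, hR⟩ := split (fun i : Fin (N + 1) => (xg i : FG h (N + 1))) j.castSucc
  set C := (List.ofFn fun i : Fin h => (cm i : FG h (N + 1))).prod with hC
  have hc : (cW h (N + 1) : FG h (N + 1)) = C * L * xg j.castSucc * R := by
    rw [cW_eq, hLR, ← mul_assoc, ← mul_assoc]
  have hLx : C * L ∈ Ot (Sum.inr j.castSucc) := by
    refine mul_mem (cms_Ot _) ((Subgroup.closure_le _).2 ?_ hL)
    rintro _ ⟨i, hi, rfl⟩
    exact of_Ot (by simpa using hi.ne)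
  have hRx : R ∈ Ot (Sum.inr j.castSucc) := by
    refine (Subgroup.closure_le _).2 ?_ hR
    rintro _ ⟨i, hi, rfl⟩
    exact of_Ot (by simpa using hi.ne')
  have hkL : (kap (C * L) : FG h N) ∈
      Subgroup.closure {z | (∃ i, z = cm i) ∨ ∃ i, i < j ∧ z = xg i} := by
    rw [map_mul]
    refine mul_mem ?_ ?_
    · rw [hC, map_ofFn_prod]
      apply Subgroup.list_prod_mem
      intro x hx
      rw [List.mem_ofFn] at hx
      obtain ⟨i, rfl⟩ := hx
      rw [kap_cm]
      exact Subgroup.subset_closure (Or.inl ⟨i, rfl⟩)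
    · have h1 : Subgroup.closure {z | ∃ i, i < j.castSucc ∧ z = (xg i : FG h (N + 1))} ≤
          (Subgroup.closure {z | (∃ i, z = (cm i : FG h N)) ∨ ∃ i, i < j ∧ z = xg i}).comap kap := by
        rw [Subgroup.closure_le]
        rintro _ ⟨i, hi, rfl⟩
        rw [SetLike.mem_coe, Subgroup.mem_comap, kap_xg]
        have h2 : i = (⟨i, lt_of_lt_of_le hi (by simp)⟩ : Fin N).castSucc := rfl
        rw [h2, per_castSucc]
        exact Subgroup.subset_closure (Or.inr ⟨_, hi, rfl⟩)
      exact h1 hL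
  generalize C * L = L' at hc hLx hkL
  have hk : (kap R : FG h N) = (kap L' * xg j)⁻¹ := by
    have h1 := kap_cW (h := h) (N := N)
    rw [hc, map_mul, map_mul, kap_xg, per_castSucc] at h1
    rw [eq_inv_iff_mul_eq_one]
    have h2 : kap R * (kap L' * xg j) = (kap L' * xg j)⁻¹ * (kap L' * xg j * kap R) *
      (kap L' * xg j : FG h N) := by group
    rw [h2, h1]
    group
  refine ⟨kap L', hkL, ?_⟩
  have h1 := from_push (mv (s := Sum.inr j.castSucc) (u := (R * L')⁻¹) (v := R * L')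
      (inv_mem (mul_mem hRx hLx)) (mul_mem hRx hLx))
      (by
        intro i
        by_cases hi : i = j.castSucc
        · subst hi
          exact ⟨(R * L')⁻¹, by rw [mv_self, inv_inv]⟩
        · exact ⟨1, by rw [mv_ne _ _ (by simpa using hi)]; group⟩) (R⁻¹ * xg j.castSucc * R)
      (by
        rw [hc, map_mul, map_mul, mv_Ot _ _ hLx, mv_Ot _ _ hRx, mv_self]
        group)
      (fun s => by rw [mv_ne _ _ (by simp), kap_inl])
      (by
        intro i
        by_cases hi : i = j.castSucc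
        · subst hi
          rw [mv_self, map_mul, map_mul, map_inv, map_mul, hk, kap_xg, per_castSucc]
          group
        · rw [mv_ne _ _ (by simpa using hi), kap_xg])
  rw [map_mul, map_mul, map_inv, kap_xg, per_castSucc, hk] at h1
  have h2 : kap L' * xg j * (kap L')⁻¹ = ((kap L' * xg j)⁻¹)⁻¹ * xg j * (kap L' * xg j : FG h N)⁻¹ := by
    group
  rw [h2]
  exact h1

theorem YY_handle (i : Fin h) : (ga i : FG h N) ∈ YY h N ∧ (gb i : FG h N) ∈ YY h N := by
  induction i using WellFoundedLT.induction with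
  | ind i ih =>
    obtain ⟨L, hL, h1, h2⟩ := push_handle (N := N) i
    have hL' : L ∈ YY h N := by
      refine (Subgroup.closure_le _).2 ?_ hL
      rintro _ ⟨j, hj, rfl⟩
      obtain ⟨h3, h4⟩ := ih j hj
      exact mul_mem (mul_mem (mul_mem h3 h4) (inv_mem h3)) (inv_mem h4)
    have h3 : (ga i * gb i : FG h N) ∈ YY h N := by
      have h5 := mul_mem (mul_mem (inv_mem hL') (mul_mem h1 (inv_mem h2))) hL'
      have h6 : L⁻¹ * (L * ga i * gb i * ga i * (gb i)⁻¹ * (ga i)⁻¹ * L⁻¹ *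
        (L * ga i * (gb i)⁻¹ * (ga i)⁻¹ * L⁻¹)⁻¹) * L = (ga i * gb i : FG h N) := by group
      rwa [h6] at h5
    have h4 : (ga i * gb i * (ga i)⁻¹ : FG h N) ∈ YY h N := by
      have h5 := mul_mem (mul_mem (inv_mem hL') (inv_mem h2)) hL'
      have h6 : L⁻¹ * (L * ga i * (gb i)⁻¹ * (ga i)⁻¹ * L⁻¹)⁻¹ * L =
        (ga i * gb i * (ga i)⁻¹ : FG h N) := by group
      rwa [h6] at h5
    have h5 : (ga i : FG h N) ∈ YY h N := by
      have h6 := mul_mem (inv_mem h4) h3
      have h7 : (ga i * gb i * (ga i)⁻¹)⁻¹ * (ga i * gb i) = (ga i : FG h N) := by group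
      rwa [h7] at h6
    refine ⟨h5, ?_⟩
    have h6 := mul_mem (inv_mem h5) h3
    rwa [inv_mul_cancel_left] at h6

theorem YY_point (j : Fin N) : (xg j : FG h N) ∈ YY h N := by
  induction j using WellFoundedLT.induction with
  | ind j ih =>
    obtain ⟨L, hL, h1⟩ := push_point (h := h) j
    have hL' : L ∈ YY h N := by
      refine (Subgroup.closure_le _).2 ?_ hL
      rintro _ (⟨i, rfl⟩ | ⟨i, hi, rfl⟩)
      · obtain ⟨h3, h4⟩ := YY_handle (N := N) i
        exact mul_mem (mul_mem (mul_mem h3 h4) (inv_mem h3)) (inv_mem h4)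
      · exact ih i hi
    have h5 := mul_mem (mul_mem (inv_mem hL') h1) hL'
    have h6 : L⁻¹ * (L * xg j * L⁻¹) * L = (xg j : FG h N) := by group
    rwa [h6] at h5

theorem YY_top (y : FG h N) : y ∈ YY h N := by
  induction y using FreeGroup.induction_on with
  | C1 => exact one_mem _
  | of s =>
    rcases s with (i | i) | j
    · exact (YY_handle i).1
    · exact (YY_handle i).2
    · exact YY_point j
  | inv_of s ih => exact inv_mem ih
  | mul u v hu hv => exact mul_mem hu hv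

/-- Every mapping class of the filled surface, acting on the fundamental group based at the filled
puncture, lifts. -/
theorem red_surj : Function.Surjective (red : CPc h (N + 1) →* CP h N) := by
  rintro ⟨f, hf⟩
  obtain ⟨w, hw⟩ := CP_cW hf
  obtain ⟨g, hg, hg'⟩ := YY_top w
  have h1 : MulAut.conj w⁻¹ * f ∈ CPc h N := by
    refine ⟨mul_mem (conj_CP _) hf, ?_⟩
    rw [MulAut.mul_apply, hw, MulAut.conj_apply]
    group
  refine ⟨⟨g, hg⟩ * ⟨exA (MulAut.conj w⁻¹ * f), exA_mem h1⟩, ?_⟩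
  apply Subtype.ext
  apply MulEquiv.ext
  intro y
  change kap (g (exA (MulAut.conj w⁻¹ * f) (io y))) = f y
  rw [hg', exA_io, kap_io, MulAut.mul_apply, MulAut.conj_apply]
  group

end Pool.MP_59b15d_al.H73H
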