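import Mathlib
import Pool.Agent.H.MP_59b15d_al.h73h.Pu1
import Pool.Agent.H.MP_59b15d_al.h73h.Pu2
import Pool.Agent.H.MP_59b15d_al.h76m.Ha

set_option autoImplicit false

/-!
Residual finiteness, centralisers, and automorphisms that are inner modulo all levels.
-/

namespace Pool.MP_59b15d_al.H73H

open Pool.MP_59b15d_al.Sym (Gg cW)
open Pool.MP_59b15d_al.SymH
open Pool.MP_59b15d_al.H76 (Heis commute_cyclic exists_pow_mem zpow_mem_of_dvd)
open FreeGroup (of)

/-- Free groups are residually finite. -/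
theorem free_rf {α : Type*} (w : FreeGroup α)
    (hw : ∀ U : Subgroup (FreeGroup α), U.Normal → U.FiniteIndex → w ∈ U) : w = 1 := by
  classical
  let P : Finset (FreeGroup α) := (w.toWord.tails.map FreeGroup.mk).toFinset
  have hP : ∀ L : List (α × Bool), L <:+ w.toWord → FreeGroup.mk L ∈ P := by
    intro L hL
    simp only [P, List.mem_toFinset, List.mem_map]
    exact ⟨L, (List.mem_tails _ _).2 hL, rfl⟩
  have hσ : ∀ x : α, ∃ g : Equiv.Perm P, ∀ p : P, of x * (p : FreeGroup α) ∈ P →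
      ((g p : P) : FreeGroup α) = of x * p := by
    intro x
    obtain ⟨g, hg⟩ := Finset.exists_equiv_extend_of_card_eq (α := P) (t := P)
      (Fintype.card_coe P) (s := Finset.univ.filter fun p : P => of x * (p : FreeGroup α) ∈ P)
      (f := fun p : P => of x * (p : FreeGroup α)) (by
        intro y hy
        rw [Finset.mem_image] at hy
        obtain ⟨p, hp, rfl⟩ := hy
        exact (Finset.mem_filter.1 hp).2) (by
        intro p _ q _ hpq
        exact Subtype.ext (mul_left_cancel hpq))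
    exact ⟨g, fun p hp => hg p (Finset.mem_filter.2 ⟨Finset.mem_univ _, hp⟩)⟩
  choose σ hσ using hσ
  let ρ : FreeGroup α →* Equiv.Perm P := FreeGroup.lift σ
  have h1P : (1 : FreeGroup α) ∈ P := hP [] List.nil_suffix
  have key : ∀ (L : List (α × Bool)) (hL : L <:+ w.toWord),
      ρ (FreeGroup.mk L) ⟨1, h1P⟩ = ⟨FreeGroup.mk L, hP L hL⟩ := by
    intro L
    induction L with
    | nil =>
      intro hL
      change ρ 1 _ = _
      rw [map_one]
      rfl
    | cons a L ih =>
      intro hL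
      have hL' : L <:+ w.toWord := (List.suffix_cons a L).trans hL
      have h2 := ih hL'
      obtain ⟨x, b⟩ := a
      have h3 : FreeGroup.mk ((x, b) :: L) = FreeGroup.mk [(x, b)] * FreeGroup.mk L := by
        rw [FreeGroup.mul_mk]; rfl
      have h4 := hP _ hL
      have h5 := hP _ hL'
      apply Subtype.ext
      cases b
      · have h6 : (FreeGroup.mk [(x, false)] : FreeGroup α) = (of x)⁻¹ := rfl
        rw [h6] at h3
        have h7 := hσ x ⟨FreeGroup.mk ((x, false) :: L), h4⟩ (by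
          change of x * FreeGroup.mk ((x, false) :: L) ∈ P
          rw [h3, mul_inv_cancel_left]; exact h5)
        have h8 : σ x ⟨FreeGroup.mk ((x, false) :: L), h4⟩ = ⟨FreeGroup.mk L, h5⟩ := by
          apply Subtype.ext
          rw [h7]
          change of x * FreeGroup.mk ((x, false) :: L) = _
          rw [h3, mul_inv_cancel_left]
        have h9 : ρ (FreeGroup.mk ((x, false) :: L)) ⟨1, h1P⟩ =
            ⟨FreeGroup.mk ((x, false) :: L), h4⟩ := by
          conv_lhs => rw [h3, map_mul, map_inv]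
          change (ρ (of x))⁻¹ (ρ (FreeGroup.mk L) ⟨1, h1P⟩) = _
          rw [h2, Equiv.Perm.inv_eq_iff_eq]
          have h10 : ρ (of x) = σ x := FreeGroup.lift_apply_of
          rw [h10, h8]
        rw [h9]
      · have h6 : (FreeGroup.mk [(x, true)] : FreeGroup α) = of x := rfl
        rw [h6] at h3
        have h9 : ρ (FreeGroup.mk ((x, true) :: L)) ⟨1, h1P⟩ =
            ⟨FreeGroup.mk ((x, true) :: L), h4⟩ := by
          conv_lhs => rw [h3, map_mul]
          change ρ (of x) (ρ (FreeGroup.mk L) ⟨1, h1P⟩) = _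
          have h10 : ρ (of x) = σ x := FreeGroup.lift_apply_of
          rw [h2, h10]
          apply Subtype.ext
          rw [hσ x ⟨FreeGroup.mk L, h5⟩ (by
            change of x * FreeGroup.mk L ∈ P
            rw [← h3]; exact h4)]
          exact h3.symm
        rw [h9]
  have h2 := key w.toWord (List.suffix_refl _)
  have h3 := hw ρ.ker inferInstance (Subgroup.finiteIndex_ker ρ)
  rw [MonoidHom.mem_ker] at h3
  have h4 := congrArg Subtype.val h2
  simp only [FreeGroup.mk_toWord] at h4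
  rw [h3] at h4
  exact h4.symm

variable {h N : ℕ}

section ext2

variable {G : Type*} [Group G]

/-- The extension of a homomorphism to one more generator. -/
def ext2 (φ : FG h N →* G) (x : G) : FG h (N + 1) →* G :=
  FreeGroup.lift (Sum.elim (fun s => φ (of (Sum.inl s)))
    (fun j => Fin.lastCases (motive := fun _ => G) x (fun j => φ (xg j)) j))

theorem ext2_last (φ : FG h N →* G) (x : G) : ext2 φ x (xg (Fin.last N)) = x := by
  rw [ext2, FreeGroup.lift_apply_of, Sum.elim_inr, Fin.lastCases_last]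

theorem ext2_io (φ : FG h N →* G) (x : G) (z : FG h N) : ext2 φ x (io z) = φ z := by
  have : (ext2 φ x).comp io = φ := by
    apply hom_ext
    · intro s
      rw [MonoidHom.comp_apply, io_inl, ext2, FreeGroup.lift_apply_of]
      rfl
    · intro j
      rw [MonoidHom.comp_apply, io_xg, ext2, FreeGroup.lift_apply_of, Sum.elim_inr,
        Fin.lastCases_castSucc]
  exact DFunLike.congr_fun this z

end ext2

/-- Change of rings for the Heisenberg group. -/
def hmap {R S : Type*} [CommRing R] [CommRing S] (φ : R →+* S) : Heis R →* Heis S where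
  toFun u := ⟨φ u.x, φ u.y, φ u.z⟩
  map_one' := by ext <;> simp
  map_mul' u v := by ext <;> simp

theorem zpow_one_z {R : Type*} [CommRing R] (u : Heis R) (h0 : u.x = 1) (h1 : u.y = 0)
    (k : ℤ) : (u ^ k * ⟨0, 1, 0⟩ * (u ^ k)⁻¹).z = k := by
  have h2 := Heis.zpow_x u k
  have h3 := Heis.zpow_y u k
  simp only [Heis.mul_z, Heis.mul_x, Heis.inv_z, Heis.inv_y, h2, h3, h0, h1]
  ring

/-- `a ↦ (0,1,0)`, `x_N ↦ (1,0,0)` for the last letter. -/
def chi (R : Type*) [CommRing R] (i : Fin h) : FG h (N + 1) →* Heis R :=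
  ext2 (FreeGroup.lift fun t => if t = Sum.inl (Sum.inl i) then ⟨0, 1, 0⟩ else 1) ⟨1, 0, 0⟩

theorem chi_a (R : Type*) [CommRing R] (i : Fin h) :
    chi (N := N) R i (ga i) = ⟨0, 1, 0⟩ := by
  have h1 : (ga i : FG h (N + 1)) = io (ga i) := (io_inl _).symm
  rw [h1, chi, ext2_io, FreeGroup.lift_apply_of, if_pos rfl]

theorem prod_ofFn_one {G : Type*} [Group G] {n : ℕ} {g : Fin n → G} (hg : ∀ i, g i = 1) :
    (List.ofFn g).prod = 1 := by
  have : g = fun _ => 1 := funext hg
  rw [this, List.ofFn_const, List.prod_replicate, one_pow]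

theorem chi_c (R : Type*) [CommRing R] (i : Fin h) :
    chi (N := N) R i (cW h (N + 1)) = ⟨1, 0, 0⟩ := by
  rw [← io_cW, map_mul, chi, ext2_io, ext2_last, cW_eq, map_mul, map_ofFn_prod, map_ofFn_prod,
    prod_ofFn_one, prod_ofFn_one, one_mul, one_mul]
  · intro j
    rw [FreeGroup.lift_apply_of, if_neg (by simp)]
  · intro j
    rw [cm]
    simp only [map_mul, map_inv, FreeGroup.lift_apply_of]
    rw [if_neg (by simp : ¬ (Sum.inl (Sum.inr j) : (Fin h ⊕ Fin h) ⊕ Fin N) = Sum.inl (Sum.inl i))]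
    simp

theorem chi_cast (R : Type*) [CommRing R] (i : Fin h) (z : FG h (N + 1)) :
    chi (N := N) R i z = hmap (Int.castRingHom R) (chi ℤ i z) := by
  have : chi (N := N) R i = (hmap (Int.castRingHom R)).comp (chi ℤ i) := by
    apply hom_ext_io'
    · intro z
      rw [MonoidHom.comp_apply, chi, chi, ext2_io, ext2_io]
      have h2 : (FreeGroup.lift fun t : (Fin h ⊕ Fin h) ⊕ Fin N =>
          if t = Sum.inl (Sum.inl i) then (⟨0, 1, 0⟩ : Heis R) else 1) =
          (hmap (Int.castRingHom R)).comp (FreeGroup.lift fun t : (Fin h ⊕ Fin h) ⊕ Fin N =>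
          if t = Sum.inl (Sum.inl i) then (⟨0, 1, 0⟩ : Heis ℤ) else 1) := by
        apply FreeGroup.ext_hom
        intro t
        rw [MonoidHom.comp_apply, FreeGroup.lift_apply_of, FreeGroup.lift_apply_of]
        split_ifs
        · ext <;> simp [hmap]
        · rw [map_one]
      exact DFunLike.congr_fun h2 z
    · rw [MonoidHom.comp_apply, chi, chi, ext2_last, ext2_last]
      ext <;> simp [hmap]
  exact DFunLike.congr_fun this z

/-- The level detecting the powers of `c`. -/
theorem chi_level (i : Fin h) (M : ℕ) (k : ℤ) {f : MulAut (FG h (N + 1))}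
    (hf : f (ga i) * (cW h (N + 1) ^ k * ga i * (cW h (N + 1) ^ k)⁻¹)⁻¹ ∈
      (chi (N := N) (ZMod M) i).ker) :
    (((chi (N := N) ℤ i (f (ga i))).z : ℤ) : ZMod M) = k := by
  rw [MonoidHom.mem_ker, map_mul, map_inv, mul_inv_eq_one] at hf
  have h1 := congrArg Heis.z hf
  rw [map_mul, map_mul, map_inv, map_zpow, chi_a, zpow_one_z _ (by rw [chi_c]) (by rw [chi_c]),
    chi_cast] at h1
  exact h1

/-- An automorphism that is a conjugation by a power of `c` modulo every level. -/
theorem inn_of_levels (hh : 1 ≤ h) (f : MulAut (FG h (N + 1)))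
    (hf : ∀ U : Subgroup (FG h (N + 1)), U.Normal → U.FiniteIndex → ∃ k : ℤ, ∀ z,
      f z * (cW h (N + 1) ^ k * z * (cW h (N + 1) ^ k)⁻¹)⁻¹ ∈ U) :
    ∃ k : ℤ, f = MulAut.conj (cW h (N + 1) ^ k) := by
  set i : Fin h := ⟨0, hh⟩
  set c := cW h (N + 1) with hc
  set k₀ : ℤ := (chi (N := N) ℤ i (f (ga i))).z with hk₀
  refine ⟨k₀, MulEquiv.ext fun z => ?_⟩
  rw [MulAut.conj_apply, ← mul_inv_eq_one]
  apply free_rf
  intro U hU hUf
  obtain ⟨e, he, hM⟩ := exists_pow_mem U
  have : NeZero e := ⟨he.ne'⟩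
  have hchf : (chi (N := N) (ZMod e) i).ker.FiniteIndex := Subgroup.finiteIndex_ker _
  obtain ⟨k, hk⟩ := hf (U ⊓ (chi (N := N) (ZMod e) i).ker) inferInstance inferInstance
  have h1 := chi_level i e k (hk (ga i)).2
  have h2 : (e : ℤ) ∣ k₀ - k := by
    rw [← ZMod.intCast_zmod_eq_zero_iff_dvd, Int.cast_sub, h1, sub_self]
  have h3 : c ^ (k₀ - k) ∈ U := zpow_mem_of_dvd (hM c) h2
  have h4 : c ^ k₀ = c ^ (k₀ - k) * c ^ k := by rw [← zpow_add]; congr 1; ring
  have h5 := (hk z).1
  -- `c^k₀ z c^-k₀ ≡ c^k z c^-k`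
  have h6 : f z * (c ^ k₀ * z * (c ^ k₀)⁻¹)⁻¹ =
      (f z * (c ^ k * z * (c ^ k)⁻¹)⁻¹) * ((c ^ k * z * (c ^ k)⁻¹) * c ^ (k₀ - k) *
        (c ^ k * z * (c ^ k)⁻¹)⁻¹) * (c ^ (k₀ - k))⁻¹ := by
    rw [h4]; group
  rw [h6]
  exact U.mul_mem (U.mul_mem h5 (hU.conj_mem _ h3 _)) (U.inv_mem h3)

/-- The map with `a_i ↦ (1,0,0)`, `b_i ↦ (0,1,0)`. -/
def psi (i : Fin h) : FG h N →* Heis ℤ :=
  FreeGroup.lift fun t => if t = Sum.inl (Sum.inl i) then ⟨1, 0, 0⟩ else
    if t = Sum.inl (Sum.inr i) then ⟨0, 1, 0⟩ else 1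

theorem psi_c (i : Fin h) : psi (N := N) i (cW h N) = ⟨0, 0, 1⟩ := by
  obtain ⟨L, R, hLR, hL, hR⟩ := split (fun i : Fin h => (cm i : FG h N)) i
  have hj : ∀ j, j ≠ i → psi (N := N) i (cm j) = 1 := by
    intro j hj
    rw [cm]
    simp only [map_mul, map_inv, psi, FreeGroup.lift_apply_of]
    rw [if_neg (by simpa using hj), if_neg (by simp), if_neg (by simp), if_neg (by simpa using hj)]
    simp
  have hi : psi (N := N) i (cm i) = ⟨0, 0, 1⟩ := by
    rw [cm]
    simp only [map_mul, map_inv, psi, FreeGroup.lift_apply_of]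
    rw [if_neg (by simp : ¬ (Sum.inl (Sum.inr i) : (Fin h ⊕ Fin h) ⊕ Fin N) = Sum.inl (Sum.inl i))]
    simp only [if_true]
    ext <;> simp
  have hL' : psi (N := N) i L = 1 := by
    have h1 : Subgroup.closure {z | ∃ j, j < i ∧ z = (cm j : FG h N)} ≤ (psi (N := N) i).ker := by
      rw [Subgroup.closure_le]
      rintro _ ⟨j, hj', rfl⟩
      exact hj j hj'.ne
    exact h1 hL
  have hR' : psi (N := N) i R = 1 := by
    have h1 : Subgroup.closure {z | ∃ j, i < j ∧ z = (cm j : FG h N)} ≤ (psi (N := N) i).ker := by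
      rw [Subgroup.closure_le]
      rintro _ ⟨j, hj', rfl⟩
      exact hj j hj'.ne'
    exact h1 hR
  rw [cW_eq, hLR, map_mul, map_mul, map_mul, hL', hR', hi, map_ofFn_prod, prod_ofFn_one]
  · simp
  · intro j
    rw [psi, FreeGroup.lift_apply_of, if_neg (by simp), if_neg (by simp)]

theorem cent_aux {α : Type*} (g w : FreeGroup α) (hgw : g * w = w * g)
    (hw : ∀ (y : FreeGroup α) (l : ℤ), w = y ^ l → l = 1 ∨ l = -1) : ∃ k : ℤ, g = w ^ k := by
  obtain ⟨y, k, l, hk, hl⟩ := commute_cyclic g w hgw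
  rcases hw y l hl with rfl | rfl
  · exact ⟨k, by rw [hk, hl, zpow_one]⟩
  · refine ⟨-k, ?_⟩
    rw [hk, hl, ← zpow_mul]
    congr 1
    ring

/-- The centralisers of the loops around the punctures. -/
theorem cent_per (hh : 1 ≤ h) (j : Fin (N + 1)) (g : FG h N) (hg : g * per j = per j * g) :
    ∃ k : ℤ, g = per j ^ k := by
  apply cent_aux g _ hg
  refine Fin.lastCases ?_ (fun j => ?_) j
  · intro y l hl
    rw [per_last, xn] at hl
    have h1 := congrArg (psi ⟨0, hh⟩) hl
    rw [map_inv, psi_c, map_zpow] at h1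
    have hx := congrArg Heis.x h1
    have hy := congrArg Heis.y h1
    rw [Heis.zpow_x] at hx
    rw [Heis.zpow_y] at hy
    have hl0 : l ≠ 0 := by
      rintro rfl
      have hz := congrArg Heis.z h1
      simp at hz
    have hx0 : (psi (N := N) ⟨0, hh⟩ y).x = 0 := by
      have : (l : ℤ) * (psi (N := N) ⟨0, hh⟩ y).x = 0 := by
        rw [Int.cast_id] at hx; rw [← hx]; simp
      exact (mul_eq_zero.1 this).resolve_left hl0
    have hy0 : (psi (N := N) ⟨0, hh⟩ y).y = 0 := by
      have : (l : ℤ) * (psi (N := N) ⟨0, hh⟩ y).y = 0 := by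
        rw [Int.cast_id] at hy; rw [← hy]; simp
      exact (mul_eq_zero.1 this).resolve_left hl0
    rw [Heis.zpow_central _ hx0 hy0] at h1
    have hz := congrArg Heis.z h1
    simp only [Heis.inv_z] at hz
    have h2 : l * (-(psi (N := N) ⟨0, hh⟩ y).z) = 1 := by
      have h3 : (l : ℤ) * (psi (N := N) ⟨0, hh⟩ y).z = -1 := by
        rw [Int.cast_id] at hz; rw [← hz]; simp
      linarith
    exact Int.isUnit_iff.1 (IsUnit.of_mul_eq_one _ h2)
  · intro y l hl
    rw [per_castSucc] at hl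
    let deg : FG h N →* Multiplicative ℤ := FreeGroup.lift fun t =>
      if t = Sum.inr j then Multiplicative.ofAdd 1 else 1
    have h1 := congrArg deg hl
    rw [map_zpow] at h1
    have h2 : deg (xg j) = Multiplicative.ofAdd 1 := by
      simp [deg]
    rw [h2] at h1
    have h3 : l * Multiplicative.toAdd (deg y) = 1 := by
      have h4 := congrArg Multiplicative.toAdd h1
      rw [toAdd_zpow, toAdd_ofAdd, smul_eq_mul] at h4
      exact h4.symm
    exact Int.isUnit_iff.1 (IsUnit.of_mul_eq_one _ h3)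

end Pool.MP_59b15d_al.H73H
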