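import Mathlib
import Pool.Agent.H.MP_59b15d_al.sym.Glue
import Pool.Agent.H.MP_59b15d_al.h73h.Ke1
import Pool.Agent.H.MP_59b15d_al.h76m.Hb
import Pool.Agent.H.MP_59b15d_al.h76r.Sd

set_option autoImplicit false

/-!
The kernel of filling in the last puncture.
-/

namespace Pool.MP_59b15d_al.H73H

open Pool.MP_59b15d_al.Sym (Gg cW)
open Pool.MP_59b15d_al.SymH
open FreeGroup (of)

variable {h N : ℕ}

/-- splitting the last letter -/
def jj : FG h (N + 1) →* FG h (N + 2) :=
  ext2 (io.comp io) (xg (Fin.last N).castSucc * xg (Fin.last (N + 1)))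

/-- the retraction -/
def ret : FG h (N + 2) →* FG h (N + 1) := ext2 (MonoidHom.id _) 1

theorem jj_io (z : FG h N) : jj (io z) = io (io z) := ext2_io _ _ _

theorem jj_last : jj (xg (Fin.last N) : FG h (N + 1)) =
    xg (Fin.last N).castSucc * xg (Fin.last (N + 1)) := ext2_last _ _

theorem ret_jj (z : FG h (N + 1)) : ret (jj z) = z := by
  have : (ret : FG h (N + 2) →* FG h (N + 1)).comp jj = MonoidHom.id _ := by
    apply hom_ext_io'
    · intro z
      rw [MonoidHom.comp_apply, jj_io, ret, ext2_io]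
    · rw [MonoidHom.comp_apply, jj_last, map_mul, ← io_xg, ret, ext2_io, ext2_last, mul_one]
  exact DFunLike.congr_fun this z

theorem jj_cW : jj (cW h (N + 1)) = cW h (N + 2) := by
  rw [← io_cW, map_mul, jj_io, jj_last, ← mul_assoc, ← io_xg, ← map_mul, io_cW, io_cW]

/-- the extended homomorphism -/
def fH (f : FG h (N + 1) →* FG h (N + 1)) (w : FG h (N + 1)) : FG h (N + 2) →* FG h (N + 2) :=
  ext2 (ext2 ((jj.comp f).comp io) (jj w * xg (Fin.last N).castSucc * (jj w)⁻¹))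
    (jj w * xg (Fin.last (N + 1)) * (jj w)⁻¹)

theorem fH_io (f : FG h (N + 1) →* FG h (N + 1)) (w : FG h (N + 1)) (z : FG h N) :
    fH f w (io (io z)) = jj (f (io z)) := by
  rw [fH, ext2_io, ext2_io]
  rfl

theorem fH_x (f : FG h (N + 1) →* FG h (N + 1)) (w : FG h (N + 1)) :
    fH f w (xg (Fin.last N).castSucc) = jj w * xg (Fin.last N).castSucc * (jj w)⁻¹ := by
  conv_lhs => rw [← io_xg (Fin.last N), fH, ext2_io, ext2_last]

theorem fH_last (f : FG h (N + 1) →* FG h (N + 1)) (w : FG h (N + 1)) :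
    fH f w (xg (Fin.last (N + 1))) = jj w * xg (Fin.last (N + 1)) * (jj w)⁻¹ := by
  conv_lhs => rw [fH, ext2_last]

theorem fH_jj {f : FG h (N + 1) →* FG h (N + 1)} {w : FG h (N + 1)}
    (hf : f (xg (Fin.last N)) = w * xg (Fin.last N) * w⁻¹) (z : FG h (N + 1)) :
    fH f w (jj z) = jj (f z) := by
  have : (fH f w).comp jj = jj.comp f := by
    apply hom_ext_io'
    · intro z
      rw [MonoidHom.comp_apply, jj_io, fH_io]
      rfl
    · rw [MonoidHom.comp_apply, jj_last, map_mul, fH_x, fH_last, MonoidHom.comp_apply, hf, map_mul,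
        map_mul, map_inv, jj_last]
      group
  exact DFunLike.congr_fun this z

theorem hom_ext_io2 {G : Type*} [Group G] {f g : FG h (N + 2) →* G}
    (h1 : ∀ z : FG h N, f (io (io z)) = g (io (io z)))
    (h2 : f (xg (Fin.last N).castSucc) = g (xg (Fin.last N).castSucc))
    (h3 : f (xg (Fin.last (N + 1))) = g (xg (Fin.last (N + 1)))) : f = g := by
  apply hom_ext_io' ?_ h3
  intro z
  have : f.comp io = g.comp io := by
    apply hom_ext_io'
    · intro z
      exact h1 z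
    · rw [MonoidHom.comp_apply, MonoidHom.comp_apply, io_xg]
      exact h2
  exact DFunLike.congr_fun this z

theorem fH_comp {f g : FG h (N + 1) →* FG h (N + 1)} {w v : FG h (N + 1)}
    (hf : f (xg (Fin.last N)) = w * xg (Fin.last N) * w⁻¹) :
    (fH f w).comp (fH g v) = fH (f.comp g) (f v * w) := by
  apply hom_ext_io2
  · intro z
    rw [MonoidHom.comp_apply, fH_io, fH_jj hf, fH_io]
    rfl
  · rw [MonoidHom.comp_apply, fH_x, map_mul, map_mul, map_inv, fH_jj hf, fH_x, fH_x, map_mul]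
    group
  · rw [MonoidHom.comp_apply, fH_last, map_mul, map_mul, map_inv, fH_jj hf, fH_last, fH_last,
      map_mul]
    group

theorem fH_id : fH (MonoidHom.id (FG h (N + 1))) 1 = MonoidHom.id _ := by
  apply hom_ext_io2
  · intro z
    rw [fH_io]
    exact jj_io z
  · rw [fH_x, map_one, inv_one, one_mul, mul_one]
    rfl
  · rw [fH_last, map_one, inv_one, one_mul, mul_one]
    rfl

/-- The stabilised automorphism. -/
theorem exists_stab (f : MulAut (FG h (N + 1))) (w : FG h (N + 1))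
    (hf : f (xg (Fin.last N)) = w * xg (Fin.last N) * w⁻¹) :
    ∃ g : MulAut (FG h (N + 2)), (∀ z, g (jj z) = jj (f z)) ∧
      g (xg (Fin.last N).castSucc) = jj w * xg (Fin.last N).castSucc * (jj w)⁻¹ ∧
      g (xg (Fin.last (N + 1))) = jj w * xg (Fin.last (N + 1)) * (jj w)⁻¹ := by
  have hf' : f⁻¹ (xg (Fin.last N)) = (f⁻¹ w)⁻¹ * xg (Fin.last N) * (f⁻¹ w)⁻¹⁻¹ := by
    have h1 := congrArg (f⁻¹ ·) hf
    simp only [map_mul, map_inv, MulAut.inv_apply_self] at h1
    have h2 : f⁻¹ (xg (Fin.last N)) = (f⁻¹ w)⁻¹ * (f⁻¹ w * f⁻¹ (xg (Fin.last N)) * (f⁻¹ w)⁻¹) *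
      (f⁻¹ w)⁻¹⁻¹ := by group
    rw [← h1] at h2
    exact h2
  let F : FG h (N + 2) →* FG h (N + 2) := fH f.toMonoidHom w
  let F' : FG h (N + 2) →* FG h (N + 2) := fH (f⁻¹).toMonoidHom (f⁻¹ w)⁻¹
  have h1 : F.comp F' = MonoidHom.id _ := by
    rw [fH_comp hf]
    have h2 : f.toMonoidHom.comp (f⁻¹).toMonoidHom = MonoidHom.id (FG h (N + 1)) := by
      apply MonoidHom.ext
      intro z
      exact MulAut.apply_inv_self _ f z
    have h3 : f.toMonoidHom (f⁻¹ w)⁻¹ * w = 1 := by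
      change f (f⁻¹ w)⁻¹ * w = 1
      rw [map_inv, MulAut.apply_inv_self, inv_mul_cancel]
    rw [h2, h3, fH_id]
  have h2 : F'.comp F = MonoidHom.id _ := by
    rw [fH_comp hf']
    have h2 : (f⁻¹).toMonoidHom.comp f.toMonoidHom = MonoidHom.id (FG h (N + 1)) := by
      apply MonoidHom.ext
      intro z
      exact MulAut.inv_apply_self _ f z
    have h3 : (f⁻¹).toMonoidHom w * (f⁻¹ w)⁻¹ = 1 := mul_inv_cancel (f⁻¹ w)
    rw [h2, h3, fH_id]
  refine ⟨MonoidHom.toMulEquiv F F' h2 h1, fun z => fH_jj hf z, fH_x _ _, fH_last _ _⟩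

/-- The kernel of filling in the last puncture. -/
theorem kernel (hh : 1 ≤ h) (f : MulAut (FG h (N + 1))) (hf : f ∈ CPc h (N + 1))
    (hk : ∀ z, kap (f z) = (kap z : FG h N)) : ∃ k : ℤ, f = MulAut.conj (cW h (N + 1) ^ k) := by
  have hw : ∀ j : Fin (N + 1), ∃ w, f (xg j) = w * xg j * w⁻¹ ∧ (kap w : FG h N) = 1 := by
    intro j
    obtain ⟨v, hv⟩ := CP_xg hf.1 j
    have h1 := hk (xg j)
    rw [hv, map_mul, map_mul, map_inv, kap_xg] at h1
    obtain ⟨k, hk'⟩ := cent_per hh j (kap v) (by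
      rw [mul_inv_eq_iff_eq_mul] at h1
      exact h1)
    refine ⟨v * xg j ^ (-k), ?_, ?_⟩
    · rw [hv]; group
    · rw [map_mul, map_zpow, kap_xg, hk']; group
  choose w hw1 hw2 using hw
  obtain ⟨g, hg1, hg2, hg3⟩ := exists_stab f (w (Fin.last N)) (hw1 _)
  have hg4 : ∀ j : Fin N, g (xg j.castSucc.castSucc) =
      jj (w j.castSucc) * xg j.castSucc.castSucc * (jj (w j.castSucc))⁻¹ := by
    intro j
    have h1 : (xg j.castSucc.castSucc : FG h (N + 2)) = jj (xg j.castSucc) := by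
      rw [← io_xg j, jj_io, io_xg, io_xg]
    rw [h1, hg1, hw1, map_mul, map_mul, map_inv]
  -- the conjugators
  let w' : Fin (N + 2) → FG h (N + 2) := fun j =>
    Fin.lastCases (motive := fun _ => FG h (N + 2)) (jj (w (Fin.last N))) (fun j => jj (w j)) j
  have hw'1 : ∀ j : Fin (N + 1), w' j.castSucc = jj (w j) := fun j => Fin.lastCases_castSucc _
  have hw'2 : w' (Fin.last (N + 1)) = jj (w (Fin.last N)) := Fin.lastCases_last
  have hgw : ∀ j, g (xg j) = w' j * xg j * (w' j)⁻¹ := by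
    intro j
    refine Fin.lastCases ?_ (fun j => ?_) j
    · rw [hw'2, hg3]
    · rw [hw'1]
      refine Fin.lastCases ?_ (fun j => ?_) j
      · exact hg2
      · exact hg4 j
  have hgc : g (cW h (N + 2)) = cW h (N + 2) := by
    rw [← jj_cW, hg1, hf.2]
  have hΓ : ∀ Γ : Subgroup (FG h (N + 2)), Γ.Normal → cW h (N + 2) ∈ Γ →
      (∀ j, w' j ∈ Γ) ∧ ∀ z, g z * z⁻¹ ∈ Γ := by
    intro Γ hΓ hc
    have hd : (Γ.comap jj).Normal := hΓ.comap _
    have hdc : cW h (N + 1) ∈ Γ.comap jj := by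
      rw [Subgroup.mem_comap, jj_cW]; exact hc
    have h1 : ∀ j, jj (w j) ∈ Γ := fun j => ker_le hd hdc (hw2 j)
    have h2 : ∀ j, w' j ∈ Γ := by
      intro j
      refine Fin.lastCases ?_ (fun j => ?_) j
      · rw [hw'2]; exact h1 _
      · rw [hw'1]; exact h1 _
    refine ⟨h2, ?_⟩
    have h3 : (QuotientGroup.mk' Γ).comp g.toMonoidHom = QuotientGroup.mk' Γ := by
      have key : ∀ z, g z * z⁻¹ ∈ Γ → ((QuotientGroup.mk' Γ).comp g.toMonoidHom) z =
          QuotientGroup.mk' Γ z := by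
        intro z hz
        have h4 : QuotientGroup.mk' Γ (g z * z⁻¹) = 1 := by
          rw [QuotientGroup.mk'_apply, QuotientGroup.eq_one_iff]; exact hz
        rw [map_mul, map_inv, mul_inv_eq_one] at h4
        exact h4
      apply hom_ext_io2
      · intro z
        apply key
        rw [← jj_io, hg1, ← map_inv, ← map_mul]
        refine ker_le hd hdc ?_
        rw [map_mul, map_inv, hk, mul_inv_cancel]
      · apply key
        rw [hgw]
        have h5 := h2 (Fin.last N).castSucc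
        have h6 : w' (Fin.last N).castSucc * xg (Fin.last N).castSucc *
          (w' (Fin.last N).castSucc)⁻¹ * (xg (Fin.last N).castSucc)⁻¹ =
          w' (Fin.last N).castSucc * (xg (Fin.last N).castSucc *
          (w' (Fin.last N).castSucc)⁻¹ * (xg (Fin.last N).castSucc)⁻¹) := by group
        rw [h6]
        exact Γ.mul_mem h5 (hΓ.conj_mem _ (Γ.inv_mem h5) _)
      · apply key
        rw [hgw]
        have h5 := h2 (Fin.last (N + 1))
        have h6 : w' (Fin.last (N + 1)) * xg (Fin.last (N + 1)) *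
          (w' (Fin.last (N + 1)))⁻¹ * (xg (Fin.last (N + 1)))⁻¹ =
          w' (Fin.last (N + 1)) * (xg (Fin.last (N + 1)) *
          (w' (Fin.last (N + 1)))⁻¹ * (xg (Fin.last (N + 1)))⁻¹) := by group
        rw [h6]
        exact Γ.mul_mem h5 (hΓ.conj_mem _ (Γ.inv_mem h5) _)
    intro z
    have h4 := DFunLike.congr_fun h3 z
    rw [← QuotientGroup.eq_one_iff]
    change QuotientGroup.mk' Γ (g z * z⁻¹) = 1
    rw [map_mul, map_inv, mul_inv_eq_one]
    exact h4
  apply inn_of_levels hh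
  intro U hU hUf
  have hU1 : (U.comap ret : Subgroup (FG h (N + 2))).Normal := hU.comap _
  have hU2 : (U.comap ret : Subgroup (FG h (N + 2))).FiniteIndex := Pool.MP_59b15d_al.H76.comap_fi _ hUf
  obtain ⟨Γ, hΓ1, hΓ2, hΓ3, -, hΓ4⟩ := Sym.glue (m := h) (s := N + 2) (fun _ => True) (by
    rw [Nat.card_eq_fintype_card, Fintype.card_subtype_true, Fintype.card_fin]
    omega) (U.comap ret) hU1 hU2 (fun i hi => absurd trivial hi)
  obtain ⟨h1, h2⟩ := hΓ Γ hΓ1 hΓ3
  obtain ⟨k, hk'⟩ := hΓ4 g w' hgc hgw (fun i _ => h1 i) h2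
  refine ⟨k, fun z => ?_⟩
  have h3 := hk' (jj z)
  rw [hg1, ← jj_cW, ← map_zpow, ← map_inv, ← map_mul, ← map_mul, ← map_inv, ← map_mul,
    Subgroup.mem_comap, ret_jj] at h3
  exact h3

end Pool.MP_59b15d_al.H73H
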