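import Mathlib
import Pool.Agent.H.MP_59b15d_al.h73h.Ke2
import Pool.Agent.H.MP_59b15d_al.h76m.Hd
import Pool.Agent.H.MP_59b15d_al.h76r.Sd

set_option autoImplicit false

/-!
The congruence subgroup property of the punctured surface: one more puncture.
-/

namespace Pool.MP_59b15d_al.H73H

open Pool.MP_59b15d_al.Sym (Gg cW)
open Pool.MP_59b15d_al.SymH
open Pool.MP_59b15d_al.H76 (trivMod mem_trivMod trivMod_finiteIndex exists_char_le free_cs
  comap_fi map_fi exists_pow_mem zpow_mem_of_dvd)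
open FreeGroup (of)

variable {h N : ℕ}

/-- an automorphism mapping the last generator to `c` -/
theorem exists_al : ∃ α : MulAut (FG h (N + 1)), α (xg (Fin.last N)) = cW h (N + 1) := by
  have h1 : io (cW h N) ∈ Ot (Sum.inr (Fin.last N) : (Fin h ⊕ Fin h) ⊕ Fin (N + 1)) := by
    have h2 : ∀ z : FG h N, io z ∈ Ot (Sum.inr (Fin.last N) : (Fin h ⊕ Fin h) ⊕ Fin (N + 1)) := by
      intro z
      induction z using FreeGroup.induction_on with
      | C1 => rw [map_one]; exact one_mem _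
      | of s =>
        rcases s with s | j
        · rw [io_inl]; exact of_Ot (by simp)
        · rw [io_xg]; exact of_Ot (by simp)
      | inv_of s ih => rw [map_inv]; exact inv_mem ih
      | mul u v hu hv => rw [map_mul]; exact mul_mem hu hv
    exact h2 _
  refine ⟨mv h1 (one_mem _), ?_⟩
  rw [mv_self, mul_one, io_cW]

/-- the centraliser of `c` -/
theorem cs_c (M : Subgroup (FG h (N + 1))) (hM : M.Normal) (hMf : M.FiniteIndex) :
    ∃ M' : Subgroup (FG h (N + 1)), M'.Normal ∧ M'.FiniteIndex ∧ M' ≤ M ∧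
      ∀ g : FG h (N + 1), g * cW h (N + 1) * g⁻¹ * (cW h (N + 1))⁻¹ ∈ M' →
        ∃ k : ℤ, g * cW h (N + 1) ^ k ∈ M := by
  obtain ⟨α, hα⟩ := exists_al (h := h) (N := N)
  have hM1n : (M.comap α.toMonoidHom).Normal := inferInstance
  have hM1f : (M.comap α.toMonoidHom).FiniteIndex := comap_fi _ hMf
  obtain ⟨M1, h1n, h1f, h1le, h1⟩ := free_cs (Sum.inr (Fin.last N)) (M.comap α.toMonoidHom)
  have e1 : ∀ z, α (α⁻¹ z) = z := fun z => MulAut.apply_inv_self _ _ _
  have e2 : ∀ z, α⁻¹ (α z) = z := fun z => MulAut.inv_apply_self _ _ _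
  refine ⟨M1.comap (α⁻¹ : MulAut (FG h (N + 1))).toMonoidHom, inferInstance, comap_fi _ h1f,
    ?_, ?_⟩
  · intro x hx
    have h2 : α (α⁻¹ x) ∈ M := h1le hx
    rwa [e1] at h2
  · intro g hg
    have h2 : α⁻¹ (g * cW h (N + 1) * g⁻¹ * (cW h (N + 1))⁻¹) ∈ M1 := hg
    rw [← hα, map_mul, map_mul, map_mul, map_inv, map_inv, e2] at h2
    obtain ⟨k, hk⟩ := h1 _ h2
    refine ⟨k, ?_⟩
    have h3 : α (α⁻¹ g * xg (Fin.last N) ^ k) ∈ M := hk
    rwa [map_mul, map_zpow, e1, hα] at h3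

theorem fi_comap {G G' : Type*} [Group G] [Group G'] (f : G →* G') {H K : Subgroup G'}
    (h : H.relIndex K ≠ 0) {L : Subgroup G} (hf : ∀ x ∈ L, f x ∈ K) :
    (H.comap f).relIndex L ≠ 0 := by
  rw [Subgroup.relIndex_comap]
  intro h0
  apply h
  refine Subgroup.relIndex_eq_zero_of_le_right ?_ h0
  rintro _ ⟨x, hx, rfl⟩
  exact hf x hx

/-- The congruence subgroup property for the stabiliser of `c`. -/
theorem g0_c (hh : 1 ≤ h) (ih : ∀ H : Subgroup (MulAut (FG h N)), H.relIndex (CP h N) ≠ 0 →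
      ∃ U : Subgroup (FG h N), U.Normal ∧ U.FiniteIndex ∧
        ∀ f ∈ CP h N, (∀ z, f z * z⁻¹ ∈ U) → f ∈ H)
    (H : Subgroup (MulAut (FG h (N + 1)))) (hH : H.relIndex (CP h (N + 1)) ≠ 0) :
    ∃ U : Subgroup (FG h (N + 1)), U.Normal ∧ U.FiniteIndex ∧
      ∀ f ∈ CPc h (N + 1), (∀ z, f z * z⁻¹ ∈ U) → f ∈ H := by
  set c := cW h (N + 1) with hc
  set i : Fin h := ⟨0, hh⟩
  -- a power of the conjugation by `c` lies in `H`
  have hL : (H.comap (MulAut.conj : FG h (N + 1) →* MulAut (FG h (N + 1)))).FiniteIndex := by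
    constructor
    rw [← Subgroup.relIndex_top_right]
    exact fi_comap _ hH fun y _ => conj_CP y
  have hLc : (H.comap (MulAut.conj : FG h (N + 1) →* MulAut (FG h (N + 1)))).normalCore.FiniteIndex :=
    Subgroup.finiteIndex_normalCore _
  have hLcn : (H.comap (MulAut.conj : FG h (N + 1) →* MulAut (FG h (N + 1)))).normalCore.Normal :=
    Subgroup.normalCore_normal _
  obtain ⟨e, he, hM⟩ := exists_pow_mem
    (H.comap (MulAut.conj : FG h (N + 1) →* MulAut (FG h (N + 1)))).normalCore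
  have : NeZero e := ⟨he.ne'⟩
  -- the level detecting the powers of `c`
  have hchf : (chi (N := N) (ZMod e) i).ker.FiniteIndex := Subgroup.finiteIndex_ker _
  obtain ⟨Γ, hΓ, hΓf, hΓle⟩ := exists_char_le (chi (N := N) (ZMod e) i).ker hchf
  have hΓn : Γ.Normal := inferInstance
  have htf := trivMod_finiteIndex hΓ hΓf
  have hH' : (H ⊓ trivMod Γ).relIndex (CPc h (N + 1)) ≠ 0 := by
    have hle : CPc h (N + 1) ≤ CP h (N + 1) := fun f hf => hf.1
    have h1 : H.relIndex (CPc h (N + 1)) ≠ 0 := fun h0 =>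
      hH (Subgroup.relIndex_eq_zero_of_le_right hle h0)
    refine Subgroup.relIndex_inf_ne_zero h1 ?_
    intro h0
    exact htf.index_ne_zero (Subgroup.index_eq_zero_of_relIndex_eq_zero h0)
  have hfi : ((H ⊓ trivMod Γ).subgroupOf (CPc h (N + 1))).FiniteIndex := ⟨hH'⟩
  have hfi2 : (((H ⊓ trivMod Γ).subgroupOf (CPc h (N + 1))).map red).FiniteIndex :=
    map_fi red red_surj hfi
  obtain ⟨U', hU'n, hU'f, hU'⟩ := ih
    ((((H ⊓ trivMod Γ).subgroupOf (CPc h (N + 1))).map red).map (CP h N).subtype) (by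
      rw [Subgroup.relIndex, Subgroup.subgroupOf, Subgroup.comap_map_eq_self_of_injective
        (Subgroup.subtype_injective _)]
      exact hfi2.index_ne_zero)
  have hU'c : (U'.comap kap).FiniteIndex := comap_fi _ hU'f
  refine ⟨Γ ⊓ U'.comap kap, inferInstance, inferInstance, ?_⟩
  intro f hf hfU
  -- the automorphism of the filled surface
  have h1 := hU' (red ⟨f, hf⟩ : CP h N) (red ⟨f, hf⟩).2 (fun z => by
    have h2 : kap (f (io z) * (io z)⁻¹) ∈ U' := (hfU (io z)).2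
    rw [map_mul, map_inv, kap_io] at h2
    exact h2)
  obtain ⟨g, ⟨g', hg', hgg'⟩, hg⟩ := h1
  have hg'' : (g' : MulAut (FG h (N + 1))) ∈ H ⊓ trivMod Γ := hg'
  have h2 : red g' = red ⟨f, hf⟩ := by
    rw [hgg']
    exact Subtype.ext hg
  obtain ⟨k, hk⟩ := kernel hh ((g'⁻¹ * ⟨f, hf⟩ : CPc h (N + 1)) : MulAut (FG h (N + 1)))
    (g'⁻¹ * ⟨f, hf⟩).2 (fun z => by
      rw [← red_kap, map_mul, map_inv, h2, inv_mul_cancel]
      rfl)
  have h3 : (g' : MulAut (FG h (N + 1)))⁻¹ * f = MulAut.conj (c ^ k) := hk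
  have h4 : MulAut.conj (c ^ k) ∈ trivMod Γ := by
    rw [← h3]
    exact mul_mem (inv_mem hg''.2) fun z => (hfU z).1
  -- `e` divides `k`
  have h5 : ((k : ℤ) : ZMod e) = 0 := by
    have h6 := chi_level (N := N) (f := 1) i e k (by
      have h7 := hΓle (h4 (ga i))
      rw [MulAut.conj_apply] at h7
      have h8 := inv_mem h7
      rw [mul_inv_rev, inv_inv] at h8
      exact h8)
    rw [← h6, MulAut.one_apply, chi_a]
    simp
  rw [ZMod.intCast_zmod_eq_zero_iff_dvd] at h5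
  have h6' : c ^ k ∈ H.comap (MulAut.conj : FG h (N + 1) →* MulAut (FG h (N + 1))) :=
    Subgroup.normalCore_le _ (zpow_mem_of_dvd (hM c) h5)
  have h6 : MulAut.conj (c ^ k) ∈ H := h6'
  have h7 : f = g' * MulAut.conj (c ^ k) := by rw [← h3, mul_inv_cancel_left]
  rw [h7]
  exact mul_mem hg''.1 h6

/-- The congruence subgroup property: one more puncture. -/
theorem g0_succ (hh : 1 ≤ h) (ih : ∀ H : Subgroup (MulAut (FG h N)), H.relIndex (CP h N) ≠ 0 →
      ∃ U : Subgroup (FG h N), U.Normal ∧ U.FiniteIndex ∧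
        ∀ f ∈ CP h N, (∀ z, f z * z⁻¹ ∈ U) → f ∈ H)
    (H : Subgroup (MulAut (FG h (N + 1)))) (hH : H.relIndex (CP h (N + 1)) ≠ 0) :
    ∃ U : Subgroup (FG h (N + 1)), U.Normal ∧ U.FiniteIndex ∧
      ∀ f ∈ CP h (N + 1), (∀ z, f z * z⁻¹ ∈ U) → f ∈ H := by
  obtain ⟨U0, hU0n, hU0f, hU0⟩ := g0_c hh ih H hH
  have hL : (H.comap (MulAut.conj : FG h (N + 1) →* MulAut (FG h (N + 1)))).FiniteIndex := by
    constructor
    rw [← Subgroup.relIndex_top_right]
    exact fi_comap _ hH fun y _ => conj_CP y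
  have hLc : (H.comap (MulAut.conj : FG h (N + 1) →* MulAut (FG h (N + 1)))).normalCore.FiniteIndex :=
    Subgroup.finiteIndex_normalCore _
  have hLcn : (H.comap (MulAut.conj : FG h (N + 1) →* MulAut (FG h (N + 1)))).normalCore.Normal :=
    Subgroup.normalCore_normal _
  obtain ⟨M, hMn, hMf, hMle, hM⟩ := cs_c
    (U0 ⊓ (H.comap (MulAut.conj : FG h (N + 1) →* MulAut (FG h (N + 1)))).normalCore)
    inferInstance inferInstance
  refine ⟨M, hMn, hMf, fun f hf hfM => ?_⟩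
  obtain ⟨g, hg⟩ := CP_cW hf
  have h1 := hfM (cW h (N + 1))
  rw [hg] at h1
  obtain ⟨k, hk⟩ := hM g h1
  set u := g * cW h (N + 1) ^ k with hu
  have huH' : u ∈ H.comap (MulAut.conj : FG h (N + 1) →* MulAut (FG h (N + 1))) :=
    Subgroup.normalCore_le _ hk.2
  have huH : MulAut.conj u ∈ H := huH'
  have hf1 : (MulAut.conj u)⁻¹ * f ∈ H := by
    apply hU0
    · refine ⟨mul_mem (inv_mem (conj_CP u)) hf, ?_⟩
      rw [MulAut.mul_apply, hg, ← map_inv, MulAut.conj_apply, hu]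
      group
    · intro z
      rw [MulAut.mul_apply, ← map_inv, MulAut.conj_apply]
      have e : u⁻¹ * f z * u⁻¹⁻¹ * z⁻¹ = u⁻¹ * (f z * z⁻¹) * (z * u * z⁻¹) := by group
      rw [e]
      exact U0.mul_mem (U0.mul_mem (U0.inv_mem hk.1) (hMle (hfM z)).1)
        (hU0n.conj_mem u hk.1 z)
  have h2 := mul_mem huH hf1
  rwa [mul_inv_cancel_left] at h2

/-- The congruence subgroup property: all numbers of punctures. -/
theorem g0_all (hh : 1 ≤ h) (h0 : ∀ H : Subgroup (MulAut (FG h 0)), H.relIndex (CP h 0) ≠ 0 →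
      ∃ U : Subgroup (FG h 0), U.Normal ∧ U.FiniteIndex ∧
        ∀ f ∈ CP h 0, (∀ z, f z * z⁻¹ ∈ U) → f ∈ H) (N : ℕ) :
    ∀ H : Subgroup (MulAut (FG h N)), H.relIndex (CP h N) ≠ 0 →
      ∃ U : Subgroup (FG h N), U.Normal ∧ U.FiniteIndex ∧
        ∀ f ∈ CP h N, (∀ z, f z * z⁻¹ ∈ U) → f ∈ H := by
  induction N with
  | zero => exact h0
  | succ N ih => exact g0_succ hh ih

end Pool.MP_59b15d_al.H73H
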