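import Mathlib
import Pool.Agent.H.MP_59b15d_al.h73h.G0s
import Pool.Agent.H.MP_59b15d_al.symh.G1a
import Pool.Agent.H.MP_59b15d_al.symh.B10
import Pool.Agent.H.MP_59b15d_al.h76r.Sd

set_option autoImplicit false

namespace Pool.MP_59b15d_al.H73H

open Pool.MP_59b15d_al.SymH

/-- The congruence subgroup property of the punctured torus. -/
theorem hasG0_one (N : ℕ) : HasG0 1 N :=
  g0_all le_rfl (hasG0_of_g0f (Or.inl le_rfl) g0f_one_zero) N

end Pool.MP_59b15d_al.H73H
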